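import Pool.Agent.Lib_helper48.BhcDyadic

/-!
# Dyadic null sets are the null sets of the Hausdorff measure

Helper file for the hand-in on `MP_9b3711_an`.
-/

set_option autoImplicit false

open MeasureTheory Set Filter
open scoped ENNReal NNReal Topology

namespace Pool.Agent.BHX

open Pool.Agent.Bhc

variable {n : ℕ}

/-- the truncated content is attained by a finite family of cubes -/
lemma exists_cover (K : Set (Sp n)) (s : ℝ) (i j : ℕ) (k : Fin n → ℤ) :
    ∃ (ι : Type) (_ : Fintype ι) (c : ι → ℕ × (Fin n → ℤ)),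
      K ∩ cube j k ⊆ (⋃ a, cube (c a).1 (c a).2) ∧ ∑ a, sd s (c a).1 ≤ cont K s i j k := by
  induction i generalizing j k with
  | zero =>
    by_cases h : (K ∩ cube j k).Nonempty
    · refine ⟨Unit, inferInstance, fun _ => (j, k), ?_, ?_⟩
      · intro x hx
        exact mem_iUnion.2 ⟨(), hx.2⟩
      · simp [cont, h]
    · refine ⟨Empty, inferInstance, fun a => a.elim, ?_, ?_⟩
      · intro x hx
        exact absurd ⟨x, hx⟩ h
      · simp [cont, h]
  | succ i ih =>
    rw [cont]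
    rcases le_total (sd s j) (∑ e : Fin n → Fin 2, cont K s i (j + 1) (child k e)) with h | h
    · rw [min_eq_left h]
      refine ⟨Unit, inferInstance, fun _ => (j, k), ?_, ?_⟩
      · intro x hx
        exact mem_iUnion.2 ⟨(), hx.2⟩
      · simp
    · rw [min_eq_right h]
      choose ι hι c hc hs using fun e : Fin n → Fin 2 => ih (j + 1) (child k e)
      refine ⟨Σ e, ι e, inferInstance, fun a => c a.1 a.2, ?_, ?_⟩
      · intro x hx
        obtain ⟨e, he⟩ := exists_mem_child hx.2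
        obtain ⟨a, ha⟩ := mem_iUnion.1 (hc e ⟨hx.1, he⟩)
        exact mem_iUnion.2 ⟨⟨e, a⟩, ha⟩
      · rw [Fintype.sum_sigma]
        exact Finset.sum_le_sum fun e _ => hs e

lemma sd_eq (s : ℝ) (j : ℕ) : sd s j = (((2 : ℝ) ^ j)⁻¹) ^ s := by
  unfold sd
  rw [← Real.rpow_natCast, ← Real.rpow_neg (by norm_num), ← Real.rpow_mul (by norm_num)]

lemma coord_close {j : ℕ} {k : Fin n → ℤ} {x y : Sp n} (hx : x ∈ cube j k) (hy : y ∈ cube j k)
    (i : Fin n) : dist (x i) (y i) ≤ ((2 : ℝ) ^ j)⁻¹ := by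
  have h1 := mem_cube'.1 hx i
  have h2 := mem_cube'.1 hy i
  have hp : (0 : ℝ) < 2 ^ j := by positivity
  rw [Real.dist_eq, abs_le]
  have h3 : (2 : ℝ) ^ j * (x i - y i) ≤ 1 := by nlinarith [h1.2, h2.1]
  have h4 : -1 ≤ (2 : ℝ) ^ j * (x i - y i) := by nlinarith [h1.1, h2.2]
  constructor
  · rw [← neg_one_mul, ← div_eq_mul_inv, div_le_iff₀ hp]
    linarith
  · rw [← one_div, le_div_iff₀ hp]
    linarith

lemma dist_cube {j : ℕ} {k : Fin n → ℤ} {x y : Sp n} (hx : x ∈ cube j k) (hy : y ∈ cube j k) :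
    dist x y ≤ Real.sqrt n * ((2 : ℝ) ^ j)⁻¹ := by
  have hp : (0 : ℝ) < ((2 : ℝ) ^ j)⁻¹ := by positivity
  rw [EuclideanSpace.dist_eq]
  have h1 : ∑ i, dist (x i) (y i) ^ 2 ≤ n * (((2 : ℝ) ^ j)⁻¹) ^ 2 := by
    calc ∑ i, dist (x i) (y i) ^ 2 ≤ ∑ _i : Fin n, (((2 : ℝ) ^ j)⁻¹) ^ 2 :=
          Finset.sum_le_sum fun i _ => pow_le_pow_left₀ dist_nonneg (coord_close hx hy i) 2
      _ = n * (((2 : ℝ) ^ j)⁻¹) ^ 2 := by simp
  calc Real.sqrt (∑ i, dist (x i) (y i) ^ 2) ≤ Real.sqrt (n * (((2 : ℝ) ^ j)⁻¹) ^ 2) :=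
        Real.sqrt_le_sqrt h1
    _ = Real.sqrt n * ((2 : ℝ) ^ j)⁻¹ := by
        rw [Real.sqrt_mul (Nat.cast_nonneg n), Real.sqrt_sq hp.le]

lemma ediam_cube (j : ℕ) (k : Fin n → ℤ) :
    Metric.ediam (cube j k : Set (Sp n)) ≤ ENNReal.ofReal (Real.sqrt n * ((2 : ℝ) ^ j)⁻¹) := by
  apply Metric.ediam_le
  intro x hx y hy
  rw [edist_dist]
  exact ENNReal.ofReal_le_ofReal (dist_cube hx hy)

/-- A dyadically null set has Hausdorff measure zero. -/
theorem hausdorff_of_dyNull {K : Set (Sp n)} {s : ℝ} (hs : 0 < s) (h : DyNull K s) :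
    μH[s] K = 0 := by
  have hK : K ⊆ ⋃ k : Fin n → ℤ, K ∩ cube 0 k := fun x hx =>
    mem_iUnion.2 ⟨cell 0 x, hx, self_mem_cube 0 x⟩
  refine measure_mono_null hK (measure_iUnion_null fun k => ?_)
  -- coverings
  have hε : ∀ m : ℕ, (0 : ℝ) < 1 / ((m : ℝ) + 1) := fun m => by positivity
  choose i hi using fun m : ℕ => h k _ (hε m)
  choose ι hι c hc hcs using fun m : ℕ => exists_cover K s (i m) 0 k
  have hlim : Tendsto (fun m : ℕ => 1 / ((m : ℝ) + 1)) atTop (𝓝 0) :=
    tendsto_one_div_add_atTop_nhds_zero_nat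
  have hsmall : ∀ m a, (((2 : ℝ) ^ (c m a).1)⁻¹) ^ s ≤ 1 / ((m : ℝ) + 1) := by
    intro m a
    rw [← sd_eq]
    have h1 := Finset.single_le_sum (f := fun a => sd s (c m a).1)
      (fun a _ => (sd_pos s _).le) (Finset.mem_univ a)
    exact h1.trans ((hcs m).trans (hi m).le)
  have hsmall' : ∀ m a, ((2 : ℝ) ^ (c m a).1)⁻¹ ≤ (1 / ((m : ℝ) + 1)) ^ s⁻¹ := by
    intro m a
    have h1 := Real.rpow_le_rpow (by positivity) (hsmall m a) (inv_pos.2 hs).le
    rwa [← Real.rpow_mul (by positivity), mul_inv_cancel₀ hs.ne', Real.rpow_one] at h1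
  have key := Measure.hausdorffMeasure_le_liminf_sum (ι := fun m => ι m) s (K ∩ cube 0 k)
    (l := atTop) (fun m : ℕ => ENNReal.ofReal (Real.sqrt n * (1 / ((m : ℝ) + 1)) ^ s⁻¹)) ?_
    (fun m a => cube (c m a).1 (c m a).2) ?_ ?_
  · refine le_antisymm (key.trans ?_) zero_le
    have hb : ∀ m : ℕ, ∑ a, Metric.ediam (cube (c m a).1 (c m a).2 : Set (Sp n)) ^ s ≤
        ENNReal.ofReal ((Real.sqrt n) ^ s * (1 / ((m : ℝ) + 1))) := by
      intro m
      calc ∑ a, Metric.ediam (cube (c m a).1 (c m a).2 : Set (Sp n)) ^ s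
          ≤ ∑ a, ENNReal.ofReal ((Real.sqrt n) ^ s * sd s (c m a).1) := by
            refine Finset.sum_le_sum fun a _ => ?_
            refine (ENNReal.rpow_le_rpow (ediam_cube _ _) hs.le).trans (le_of_eq ?_)
            rw [ENNReal.ofReal_rpow_of_nonneg (by positivity) hs.le,
              Real.mul_rpow (by positivity) (by positivity), sd_eq]
        _ = ENNReal.ofReal (∑ a, (Real.sqrt n) ^ s * sd s (c m a).1) :=
            (ENNReal.ofReal_sum_of_nonneg fun a _ => mul_nonneg (by positivity) (sd_pos s _).le).symm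
        _ ≤ ENNReal.ofReal ((Real.sqrt n) ^ s * (1 / ((m : ℝ) + 1))) := by
            apply ENNReal.ofReal_le_ofReal
            rw [← Finset.mul_sum]
            exact mul_le_mul_of_nonneg_left ((hcs m).trans (hi m).le) (by positivity)
    have h0 : Tendsto (fun m : ℕ => ENNReal.ofReal ((Real.sqrt n) ^ s * (1 / ((m : ℝ) + 1))))
        atTop (𝓝 0) := by
      have h1 := (hlim.const_mul ((Real.sqrt n) ^ s))
      rw [mul_zero] at h1
      have h2 := ENNReal.tendsto_ofReal h1
      rwa [ENNReal.ofReal_zero] at h2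
    rw [← h0.liminf_eq]
    exact liminf_le_liminf (Eventually.of_forall hb)
  · have h1 : Tendsto (fun m : ℕ => Real.sqrt n * (1 / ((m : ℝ) + 1)) ^ s⁻¹) atTop
        (𝓝 (Real.sqrt n * 0 ^ s⁻¹)) :=
      (hlim.rpow_const (Or.inr (inv_pos.2 hs).le)).const_mul _
    rw [Real.zero_rpow (inv_pos.2 hs).ne', mul_zero] at h1
    have h2 := ENNReal.tendsto_ofReal h1
    rwa [ENNReal.ofReal_zero] at h2
  · refine Eventually.of_forall fun m a => (ediam_cube _ _).trans ?_
    exact ENNReal.ofReal_le_ofReal (mul_le_mul_of_nonneg_left (hsmall' m a) (by positivity))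
  · exact Eventually.of_forall fun m => hc m

/-- the cell of a coarser level is determined by the cell of a finer one -/
lemma cell_coarse {j m : ℕ} {x y : Sp n} (h : cell (j + m) x = cell (j + m) y) :
    cell j x = cell j y := by
  induction m with
  | zero => exact h
  | succ m ih =>
    apply ih
    obtain ⟨e, he⟩ := exists_child (j + m) x
    obtain ⟨e', he'⟩ := exists_child (j + m) y
    have h1 : child (cell (j + m) x) e = child (cell (j + m) y) e' := by
      rw [← he, ← he']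
      exact h
    funext a
    have h2 := congrFun h1 a
    simp only [child] at h2
    have h3 := (e a).2
    have h4 := (e' a).2
    omega

open Classical in
/-- the truncated content is bounded by every finite covering by cubes -/
lemma cont_le_cover {ι : Type} [Fintype ι] (c : ι → ℕ × (Fin n → ℤ))
    (K : Set (Sp n)) {s : ℝ} (hs : 0 ≤ s) (i j : ℕ) (k : Fin n → ℤ)
    (hcov : K ∩ cube j k ⊆ ⋃ a, cube (c a).1 (c a).2) (hlev : ∀ a, (c a).1 ≤ j + i) :
    cont K s i j k ≤ ∑ a ∈ Finset.univ.filter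
      (fun a => (cube (c a).1 (c a).2 ∩ cube j k : Set (Sp n)).Nonempty), sd s (c a).1 := by
  have hmono : ∀ {l l' : ℕ}, l ≤ l' → sd s l' ≤ sd s l := by
    intro l l' h
    obtain ⟨m, rfl⟩ := Nat.exists_eq_add_of_le' h
    rw [sd_add_nat]
    exact mul_le_of_le_one_left (sd_pos s l).le (sd_le_one hs m)
  induction i generalizing j k with
  | zero =>
    by_cases h : (K ∩ cube j k).Nonempty
    · obtain ⟨x, hx⟩ := h
      obtain ⟨a, ha⟩ := mem_iUnion.1 (hcov hx)
      have h1 : a ∈ Finset.univ.filter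
          (fun a => (cube (c a).1 (c a).2 ∩ cube j k : Set (Sp n)).Nonempty) :=
        Finset.mem_filter.2 ⟨Finset.mem_univ _, x, ha, hx.2⟩
      refine (cont_le_sd _ _ _ _ _).trans ((hmono (hlev a)).trans ?_)
      exact Finset.single_le_sum (f := fun a => sd s (c a).1) (fun a _ => (sd_pos s _).le) h1
    · rw [cont_eq_zero_of_empty _ _ _ _ _ h]
      exact Finset.sum_nonneg fun a _ => (sd_pos s _).le
  | succ i ih =>
    set T := Finset.univ.filter
      (fun a => (cube (c a).1 (c a).2 ∩ cube j k : Set (Sp n)).Nonempty) with hT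
    by_cases h : ∃ a ∈ T, (c a).1 ≤ j
    · obtain ⟨a, ha, hle⟩ := h
      refine (cont_le_sd _ _ _ _ _).trans ((hmono hle).trans ?_)
      exact Finset.single_le_sum (f := fun a => sd s (c a).1) (fun a _ => (sd_pos s _).le) ha
    · push Not at h
      rw [cont]
      refine (min_le_right _ _).trans ?_
      set Te : (Fin n → Fin 2) → Finset ι := fun e => Finset.univ.filter
        (fun a => (cube (c a).1 (c a).2 ∩ cube (j + 1) (child k e) : Set (Sp n)).Nonempty)
        with hTe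
      have hsub : ∀ e, Te e ⊆ T := by
        intro e a ha
        obtain ⟨-, x, hx, hx'⟩ := Finset.mem_filter.1 ha
        exact Finset.mem_filter.2 ⟨Finset.mem_univ _, x, hx, cell_child hx'⟩
      have h1 : ∀ e ∈ (Finset.univ : Finset (Fin n → Fin 2)),
          cont K s i (j + 1) (child k e) ≤ ∑ a ∈ Te e, sd s (c a).1 := by
        intro e _
        apply ih
        · intro x hx
          exact hcov ⟨hx.1, cell_child hx.2⟩
        · intro a
          have := hlev a
          omega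
      have hdisj : ∀ e ∈ (Finset.univ : Finset (Fin n → Fin 2)), ∀ e' ∈ Finset.univ, e ≠ e' →
          Disjoint (Te e) (Te e') := by
        intro e _ e' _ hne
        rw [Finset.disjoint_left]
        intro a ha ha'
        apply hne
        obtain ⟨-, x, hx, hx'⟩ := Finset.mem_filter.1 ha
        obtain ⟨-, y, hy, hy'⟩ := Finset.mem_filter.1 ha'
        have hlt := h a (hsub e ha)
        obtain ⟨m, hm⟩ : ∃ m, (c a).1 = (j + 1) + m := ⟨(c a).1 - (j + 1), by omega⟩
        have h3 : cell ((j + 1) + m) x = cell ((j + 1) + m) y := by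
          rw [← hm]
          exact (mem_cube.1 hx).trans (mem_cube.1 hy).symm
        have h4 := cell_coarse h3
        rw [mem_cube.1 hx', mem_cube.1 hy'] at h4
        exact child_injective k h4
      calc ∑ e, cont K s i (j + 1) (child k e) ≤ ∑ e, ∑ a ∈ Te e, sd s (c a).1 :=
            Finset.sum_le_sum h1
        _ = ∑ a ∈ Finset.univ.biUnion Te, sd s (c a).1 :=
            (Finset.sum_biUnion fun e he e' he' hne => hdisj e (Finset.mem_coe.1 he) e'
              (Finset.mem_coe.1 he') hne).symm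
        _ ≤ ∑ a ∈ T, sd s (c a).1 := by
            refine Finset.sum_le_sum_of_subset_of_nonneg ?_ fun a _ _ => (sd_pos s _).le
            intro a ha
            obtain ⟨e, -, he⟩ := Finset.mem_biUnion.1 ha
            exact hsub e he

/-- a set of diameter less than `2^{-l}` meets at most `3^n` cubes of level `l` -/
lemma cell_neighbour {l : ℕ} {x y : Sp n} (h : dist x y < ((2 : ℝ) ^ l)⁻¹) :
    ∃ e : Fin n → Fin 3, cell l y = fun i => cell l x i + ((e i : ℕ) : ℤ) - 1 := by
  have hp : (0 : ℝ) < 2 ^ l := by positivity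
  have key : ∀ i, ∃ e : Fin 3, cell l y i = cell l x i + ((e : ℕ) : ℤ) - 1 := by
    intro i
    have h0 : |x i - y i| ≤ dist x y := by
      have h1 := PiLp.norm_apply_le (x - y) i
      rw [dist_eq_norm]
      simpa using h1
    have h1 : |x i - y i| < ((2 : ℝ) ^ l)⁻¹ := lt_of_le_of_lt h0 h
    rw [abs_lt] at h1
    have h2 : (2 : ℝ) ^ l * (x i - y i) < 1 := by
      have := mul_lt_mul_of_pos_left h1.2 hp
      rwa [mul_inv_cancel₀ hp.ne'] at this
    have h3 : -1 < (2 : ℝ) ^ l * (x i - y i) := by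
      have := mul_lt_mul_of_pos_left h1.1 hp
      rwa [mul_neg, mul_inv_cancel₀ hp.ne'] at this
    have f1 : (cell l x i : ℝ) ≤ (2:ℝ) ^ l * x i := Int.floor_le _
    have f2 : (2:ℝ) ^ l * x i < cell l x i + 1 := Int.lt_floor_add_one _
    have f3 : (cell l y i : ℝ) ≤ (2:ℝ) ^ l * y i := Int.floor_le _
    have f4 : (2:ℝ) ^ l * y i < cell l y i + 1 := Int.lt_floor_add_one _
    have g1 : (cell l y i : ℝ) < cell l x i + 2 := by nlinarith
    have g2 : (cell l x i : ℝ) < cell l y i + 2 := by nlinarith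
    have g1' : cell l y i < cell l x i + 2 := by exact_mod_cast g1
    have g2' : cell l x i < cell l y i + 2 := by exact_mod_cast g2
    rcases (by omega : cell l y i = cell l x i - 1 ∨ cell l y i = cell l x i ∨
      cell l y i = cell l x i + 1) with h | h | h
    · refine ⟨0, ?_⟩
      rw [h]
      simp
    · refine ⟨1, ?_⟩
      rw [h]
      simp
    · refine ⟨2, ?_⟩
      rw [h]
      simp
      ring
  choose e he using key
  exact ⟨e, funext he⟩

/-- the choice of the level of a set of diameter `d` -/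
lemma exists_level {s : ℝ} (hs : 0 < s) {d : ℝ} (hd0 : 0 ≤ d) (hd : d ≤ 1 / 4) {δ : ℝ}
    (hδ : 0 < δ) : ∃ l : ℕ, d < ((2 : ℝ) ^ l)⁻¹ ∧ sd s l ≤ 4 ^ s * d ^ s + δ := by
  rcases eq_or_lt_of_le hd0 with h0 | h0
  · have h1 : Tendsto (fun l : ℕ => (((2 : ℝ) ^ l)⁻¹) ^ s) atTop (𝓝 (0 ^ s)) := by
      refine Tendsto.rpow_const ?_ (Or.inr hs.le)
      have h2 := tendsto_pow_atTop_nhds_zero_of_lt_one (r := (2 : ℝ)⁻¹) (by norm_num)
        (by norm_num)
      simpa [inv_pow] using h2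
    rw [Real.zero_rpow hs.ne'] at h1
    obtain ⟨l, hl⟩ := (h1.eventually (gt_mem_nhds hδ)).exists
    refine ⟨l, ?_, ?_⟩
    · rw [← h0]
      positivity
    · rw [sd_eq, ← h0, Real.zero_rpow hs.ne', mul_zero, zero_add]
      exact le_of_lt hl
  · obtain ⟨l, hl1, hl2⟩ := exists_nat_pow_near_of_lt_one (x := 2 * d) (y := (2 : ℝ)⁻¹)
      (by linarith) (by linarith) (by norm_num) (by norm_num)
    rw [inv_pow] at hl1 hl2
    refine ⟨l, by linarith, ?_⟩
    have h1 : ((2 : ℝ) ^ l)⁻¹ ≤ 4 * d := by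
      rw [pow_succ, mul_inv] at hl1
      linarith
    calc sd s l = (((2 : ℝ) ^ l)⁻¹) ^ s := sd_eq s l
      _ ≤ (4 * d) ^ s := Real.rpow_le_rpow (by positivity) h1 hs.le
      _ = 4 ^ s * d ^ s := Real.mul_rpow (by norm_num) hd0
      _ ≤ 4 ^ s * d ^ s + δ := by linarith

/-- A compact set of Hausdorff measure zero is dyadically null. -/
theorem dyNull_of_hausdorff {K : Set (Sp n)} (hK : IsCompact K) {s : ℝ} (hs : 0 < s)
    (h : μH[s] K = 0) : DyNull K s := by
  classical
  intro k ε hε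
  -- constants
  set A : ℝ := 3 ^ n * (4 ^ s + 2) with hA
  have hA0 : 0 < A := by positivity
  set δ : ℝ := ε / (2 * A) with hδ
  have hδ0 : 0 < δ := by positivity
  -- the covering
  rw [Measure.hausdorffMeasure_apply] at h
  have h1 : (⨅ (t : ℕ → Set (Sp n)) (_ : K ⊆ ⋃ m, t m) (_ : ∀ m, Metric.ediam (t m) ≤
      ENNReal.ofReal (1 / 4)), ∑' m, ⨆ _ : (t m).Nonempty, Metric.ediam (t m) ^ s) <
      ENNReal.ofReal δ := by
    have h2 := le_iSup₂_of_le (f := fun (r : ℝ≥0∞) (_ : 0 < r) =>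
      ⨅ (t : ℕ → Set (Sp n)) (_ : K ⊆ ⋃ m, t m) (_ : ∀ m, Metric.ediam (t m) ≤ r),
        ∑' m, ⨆ _ : (t m).Nonempty, Metric.ediam (t m) ^ s) (ENNReal.ofReal (1 / 4))
      (ENNReal.ofReal_pos.2 (by norm_num)) le_rfl
    rw [h] at h2
    exact lt_of_le_of_lt h2 (ENNReal.ofReal_pos.2 hδ0)
  simp only [iInf_lt_iff] at h1
  obtain ⟨t, htK, htd, hts⟩ := h1
  -- real diameters
  have hfin : ∀ m, Metric.ediam (t m) ≠ ⊤ := fun m => ne_top_of_le_ne_top ENNReal.ofReal_ne_top (htd m)
  set d : ℕ → ℝ := fun m => (Metric.ediam (t m)).toReal with hd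
  have hd0 : ∀ m, 0 ≤ d m := fun m => ENNReal.toReal_nonneg
  have hd4 : ∀ m, d m ≤ 1 / 4 := fun m =>
    ENNReal.toReal_le_of_le_ofReal (by norm_num) (htd m)
  have hdist : ∀ m, ∀ x ∈ t m, ∀ y ∈ t m, dist x y ≤ d m := by
    intro m x hx y hy
    rw [dist_edist]
    exact ENNReal.toReal_mono (hfin m) (Metric.edist_le_ediam_of_mem hx hy)
  have hterm : ∀ m, ENNReal.ofReal (d m ^ s) ≤ ⨆ _ : (t m).Nonempty, Metric.ediam (t m) ^ s := by
    intro m
    by_cases hne : (t m).Nonempty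
    · refine le_iSup_of_le hne (le_of_eq ?_)
      rw [← ENNReal.ofReal_rpow_of_nonneg (hd0 m) hs.le, hd, ENNReal.ofReal_toReal (hfin m)]
    · have : d m = 0 := by
        simp only [hd]
        rw [Set.not_nonempty_iff_eq_empty.1 hne]
        simp
      rw [this, Real.zero_rpow hs.ne', ENNReal.ofReal_zero]
      exact zero_le
  have hsumd : ∀ F : Finset ℕ, ∑ m ∈ F, d m ^ s ≤ δ := by
    intro F
    have h2 : ENNReal.ofReal (∑ m ∈ F, d m ^ s) ≤ ENNReal.ofReal δ := by
      rw [ENNReal.ofReal_sum_of_nonneg fun m _ => Real.rpow_nonneg (hd0 m) s]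
      refine (Finset.sum_le_sum fun m _ => hterm m).trans ?_
      exact (ENNReal.sum_le_tsum F).trans hts.le
    exact (ENNReal.ofReal_le_ofReal_iff hδ0.le).1 h2
  -- levels
  have hδm : ∀ m : ℕ, 0 < δ * (1 / 2) ^ m := fun m => by positivity
  choose l hl1 hl2 using fun m : ℕ => exists_level hs (hd0 m) (hd4 m) (hδm m)
  -- open enlargements
  set ρ : ℕ → ℝ := fun m => ((((2 : ℝ) ^ (l m))⁻¹) - d m) / 3 with hρ
  have hρ0 : ∀ m, 0 < ρ m := fun m => by
    have := hl1 m
    simp only [hρ]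
    linarith
  set U : ℕ → Set (Sp n) := fun m => Metric.thickening (ρ m) (t m) with hU
  have hUd : ∀ m, ∀ x ∈ U m, ∀ y ∈ U m, dist x y < ((2 : ℝ) ^ (l m))⁻¹ := by
    intro m x hx y hy
    obtain ⟨x', hx', hxx⟩ := Metric.mem_thickening_iff.1 hx
    obtain ⟨y', hy', hyy⟩ := Metric.mem_thickening_iff.1 hy
    have h2 := hdist m x' hx' y' hy'
    have h3 : dist x y ≤ dist x x' + dist x' y' + dist y' y := dist_triangle4 _ _ _ _
    rw [dist_comm y' y] at h3
    have h4 := hρ0 m
    simp only [hρ] at hxx hyy h4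
    linarith
  obtain ⟨F, hF⟩ := hK.elim_finite_subcover U (fun m => Metric.isOpen_thickening) (by
    refine htK.trans (iUnion_mono fun m => ?_)
    exact Metric.self_subset_thickening (hρ0 m) (t m))
  -- base points
  have hbase : ∀ m, ∃ z : Sp n, (U m).Nonempty → z ∈ U m := by
    intro m
    by_cases hne : (U m).Nonempty
    · exact ⟨hne.some, fun _ => hne.some_mem⟩
    · exact ⟨0, fun h => absurd h hne⟩
  choose z hz using hbase
  let c : F × (Fin n → Fin 3) → ℕ × (Fin n → ℤ) := fun a =>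
    (l a.1, fun i => cell (l a.1) (z a.1) i + ((a.2 i : ℕ) : ℤ) - 1)
  obtain ⟨i, hi⟩ : ∃ i, ∀ a, (c a).1 ≤ 0 + i := by
    refine ⟨Finset.univ.sup fun a => (c a).1, fun a => ?_⟩
    rw [zero_add]
    exact Finset.le_sup (f := fun a => (c a).1) (Finset.mem_univ a)
  refine ⟨i, ?_⟩
  have hcov : K ∩ cube 0 k ⊆ ⋃ a, cube (c a).1 (c a).2 := by
    intro x hx
    obtain ⟨m, hm, hxm⟩ := mem_iUnion₂.1 (hF hx.1)
    obtain ⟨e, he⟩ := cell_neighbour (hUd m _ (hz m ⟨x, hxm⟩) x hxm)
    exact mem_iUnion.2 ⟨(⟨m, hm⟩, e), he⟩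
  refine lt_of_le_of_lt (cont_le_cover c K hs.le i 0 k hcov hi) ?_
  calc ∑ a ∈ Finset.univ.filter
        (fun a => (cube (c a).1 (c a).2 ∩ cube 0 k : Set (Sp n)).Nonempty), sd s (c a).1
      ≤ ∑ a, sd s (c a).1 :=
        Finset.sum_le_sum_of_subset_of_nonneg (Finset.filter_subset _ _)
          fun a _ _ => (sd_pos s _).le
    _ = ∑ m : F, 3 ^ n * sd s (l m) := by
        rw [Fintype.sum_prod_type]
        refine Finset.sum_congr rfl fun m _ => ?_
        simp [c]
    _ = 3 ^ n * ∑ m ∈ F, sd s (l m) := by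
        rw [← Finset.mul_sum, Finset.sum_coe_sort F (fun m => sd s (l m))]
    _ ≤ 3 ^ n * ∑ m ∈ F, (4 ^ s * d m ^ s + δ * (1 / 2) ^ m) := by
        refine mul_le_mul_of_nonneg_left (Finset.sum_le_sum fun m _ => hl2 m) (by positivity)
    _ ≤ 3 ^ n * (4 ^ s * δ + 2 * δ) := by
        refine mul_le_mul_of_nonneg_left ?_ (by positivity)
        rw [Finset.sum_add_distrib, ← Finset.mul_sum, ← Finset.mul_sum]
        refine add_le_add (mul_le_mul_of_nonneg_left (hsumd F) (by positivity)) ?_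
        rw [mul_comm 2 δ]
        refine mul_le_mul_of_nonneg_left ?_ hδ0.le
        have h2 := (summable_geometric_two).sum_le_tsum F (fun m _ => by positivity)
        rwa [tsum_geometric_two] at h2
    _ = ε / 2 := by
        have h2 : 3 ^ n * (4 ^ s * δ + 2 * δ) = A * δ := by
          rw [hA]
          ring
        rw [h2, hδ]
        field_simp
    _ < ε := by linarith

/-- For compact `K` and `s > 0`: dyadically null iff the Hausdorff measure vanishes. -/
theorem dyNull_iff_hausdorff {K : Set (Sp n)} (hK : IsCompact K) {s : ℝ} (hs : 0 < s) :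
    DyNull K s ↔ μH[s] K = 0 :=
  ⟨hausdorff_of_dyNull hs, dyNull_of_hausdorff hK hs⟩

end Pool.Agent.BHX
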